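import Pool.Agent.Y212.Pk.Inv

set_option autoImplicit false
set_option linter.unusedSectionVars false

open MvPolynomial Matrix

namespace Pool.Agent.Y212.Dk

open Pool.Agent.Y212.Fk Pool.Agent.Y212.Pk

variable (k : Type*) [Field k] (n m s : ℕ)

/-- The index set of the entries of an `n × s`-matrix `B` and an `s × m`-matrix `C`. -/
abbrev Sg (n m s : ℕ) := (Fin n × Fin s) ⊕ (Fin s × Fin m)

/-- The coordinate ring of the pairs `(B, C)`. -/
abbrev PP (k : Type*) [Field k] (n m s : ℕ) := MvPolynomial (Sg n m s) k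

/-- The homomorphism of the map `(B, C) ↦ B C`. -/
noncomputable def phi : MvPolynomial (Fin n × Fin m) k →ₐ[k] PP k n m s :=
  aeval fun u => ∑ l, X (Sum.inl (u.1, l)) * X (Sum.inr (l, u.2))

/-- The coaction of the left multiplication. -/
noncomputable def coL : PP k n m s →ₐ[k] MvPolynomial (Fin n × Fin n) (PP k n m s) :=
  aeval (Sum.elim (fun u => ∑ i, X (u.1, i) * C (X (Sum.inl (i, u.2))))
    fun u => C (X (Sum.inr u)))

/-- The coaction of the right multiplication. -/
noncomputable def coR : PP k n m s →ₐ[k] MvPolynomial (Fin m × Fin m) (PP k n m s) :=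
  aeval (Sum.elim (fun u => C (X (Sum.inl u)))
    fun u => ∑ j, X (j, u.2) * C (X (Sum.inr (u.1, j))))

/-- The ideals of the Frobenius kernels. -/
noncomputable def fI (a q : ℕ) : Ideal (MvPolynomial (Fin a × Fin a) (PP k n m s)) :=
  Ideal.span (Set.range fun u => X u ^ q - if u.1 = u.2 then 1 else 0)

/-- The algebra of invariants. -/
noncomputable def InvD (q q' : ℕ) : Subalgebra k (PP k n m s) where
  carrier := {f | f ∈ (phi k n m s).range ∧ coL k n m s f - C f ∈ fI k n m s n q ∧
    coR k n m s f - C f ∈ fI k n m s m q'}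
  mul_mem' := by
    rintro a b ⟨ha1, ha2, ha3⟩ ⟨hb1, hb2, hb3⟩
    have h : coL k n m s (a * b) - C (a * b) =
        coL k n m s a * (coL k n m s b - C b) + C b * (coL k n m s a - C a) := by
      rw [map_mul, map_mul]; ring
    have h' : coR k n m s (a * b) - C (a * b) =
        coR k n m s a * (coR k n m s b - C b) + C b * (coR k n m s a - C a) := by
      rw [map_mul, map_mul]; ring
    refine ⟨Subalgebra.mul_mem _ ha1 hb1, ?_, ?_⟩
    · rw [h]
      exact Ideal.add_mem _ (Ideal.mul_mem_left _ _ hb2) (Ideal.mul_mem_left _ _ ha2)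
    · rw [h']
      exact Ideal.add_mem _ (Ideal.mul_mem_left _ _ hb3) (Ideal.mul_mem_left _ _ ha3)
  add_mem' := by
    rintro a b ⟨ha1, ha2, ha3⟩ ⟨hb1, hb2, hb3⟩
    have h : coL k n m s (a + b) - C (a + b) =
        (coL k n m s a - C a) + (coL k n m s b - C b) := by
      rw [map_add, map_add]; ring
    have h' : coR k n m s (a + b) - C (a + b) =
        (coR k n m s a - C a) + (coR k n m s b - C b) := by
      rw [map_add, map_add]; ring
    refine ⟨Subalgebra.add_mem _ ha1 hb1, ?_, ?_⟩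
    · rw [h]
      exact Ideal.add_mem _ ha2 hb2
    · rw [h']
      exact Ideal.add_mem _ ha3 hb3
  algebraMap_mem' := by
    intro a
    refine ⟨Subalgebra.algebraMap_mem _ a, ?_, ?_⟩
    · rw [AlgHom.commutes]
      have h : (algebraMap k (MvPolynomial (Fin n × Fin n) (PP k n m s))) a =
        C (algebraMap k (PP k n m s) a) := rfl
      rw [h, sub_self]
      exact Ideal.zero_mem _
    · rw [AlgHom.commutes]
      have h : (algebraMap k (MvPolynomial (Fin m × Fin m) (PP k n m s))) a =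
        C (algebraMap k (PP k n m s) a) := rfl
      rw [h, sub_self]
      exact Ideal.zero_mem _

variable {k n m s}

lemma mem_InvD {q q' : ℕ} {f : PP k n m s} :
    f ∈ InvD k n m s q q' ↔ f ∈ (phi k n m s).range ∧
      coL k n m s f - C f ∈ fI k n m s n q ∧ coR k n m s f - C f ∈ fI k n m s m q' := Iff.rfl

/-- The generic matrix `B`. -/
noncomputable def Bm (k : Type*) [Field k] (n m s : ℕ) : Matrix (Fin n) (Fin s) (PP k n m s) :=
  Matrix.of fun i l => X (Sum.inl (i, l))

/-- The generic matrix `C`. -/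
noncomputable def Cm (k : Type*) [Field k] (n m s : ℕ) : Matrix (Fin s) (Fin m) (PP k n m s) :=
  Matrix.of fun l j => X (Sum.inr (l, j))

/-- The product `B C`. -/
lemma phi_X (u : Fin n × Fin m) :
    phi k n m s (X u) = (Bm k n m s * Cm k n m s) u.1 u.2 := by
  simp [phi, Bm, Cm, Matrix.mul_apply]

/-- The minor of the first `s` rows of `B`. -/
noncomputable def mB (k : Type*) [Field k] {n m s : ℕ} (hs : s ≤ n) : PP k n m s :=
  ((Bm k n m s).submatrix (Fin.castLE hs) id).det

/-- The minors of `C`. -/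
noncomputable def mC (k : Type*) [Field k] {n m s : ℕ} (e : Fin s → Fin m) : PP k n m s :=
  ((Cm k n m s).submatrix id e).det

lemma mB_mul_mC (hs : s ≤ n) (e : Fin s → Fin m) :
    mB k hs * mC k e = phi k n m s ((gen k n m).submatrix (Fin.castLE hs) e).det := by
  rw [mB, mC, ← Matrix.det_mul, AlgHom.map_det]
  congr 1
  ext1 i j
  rw [Matrix.mul_apply]
  simp [phi, gen, Bm, Cm]

lemma mem_range (hs : s ≤ n) (e : Fin s → Fin m) :
    mB k hs * mC k e ∈ (phi k n m s).range := ⟨_, (mB_mul_mC hs e).symm⟩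

lemma coL_mC (e : Fin s → Fin m) : coL k n m s (mC k e) = C (mC k e) := by
  rw [mC, AlgHom.map_det, RingHom.map_det]
  congr 1
  ext1 i j
  simp [coL, Cm]

lemma coR_mB (hs : s ≤ n) : coR k n m s (mB k hs) = C (mB k hs) := by
  rw [mB, AlgHom.map_det, RingHom.map_det]
  congr 1
  ext1 i j
  simp [coR, Bm]

section char

variable {p : ℕ} [hp : Fact p.Prime] [CharP k p]

include hp

lemma pow_sub_mem' {a : ℕ} (r R : ℕ) (hR : r ≤ R) (i j : Fin a) :
    (X (i, j) : MvPolynomial (Fin a × Fin a) (PP k n m s)) ^ (p ^ R) -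
      (if i = j then 1 else 0) ∈ fI k n m s a (p ^ r) := by
  obtain ⟨t, rfl⟩ := Nat.exists_eq_add_of_le hR
  have h1 : (X (i, j) : MvPolynomial (Fin a × Fin a) (PP k n m s)) ^
      (p ^ r) - (if i = j then 1 else 0) ∈ fI k n m s a (p ^ r) :=
    Ideal.subset_span ⟨(i, j), rfl⟩
  have h2 : (if i = j then (1 : MvPolynomial (Fin a × Fin a) (PP k n m s))
      else 0) = (if i = j then 1 else 0) ^ (p ^ t) := by
    have : p ^ t ≠ 0 := (pow_pos hp.out.pos t).ne'
    split_ifs
    · simp
    · exact (zero_pow this).symm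
  rw [h2, pow_add, pow_mul, ← sub_pow_char_pow]
  exact Ideal.pow_mem_of_mem _ h1 _ (pow_pos hp.out.pos t)

/-- The `q`-th powers of the matrix `g * M` agree with those of `M` modulo the ideal. -/
lemma sum_pow_mem {a : ℕ} (r R : ℕ) (hR : r ≤ R) (i : Fin a) (x : Fin a → PP k n m s) :
    (∑ l, X (i, l) * C (x l) : MvPolynomial (Fin a × Fin a) (PP k n m s)) ^ (p ^ R) -
      C (x i) ^ (p ^ R) ∈ fI k n m s a (p ^ r) := by
  have h2 : (C (x i) : MvPolynomial (Fin a × Fin a) (PP k n m s))
      ^ (p ^ R) = ∑ l, (if i = l then 1 else 0) * C (x l) ^ (p ^ R) := by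
    simp
  rw [sum_pow_char_pow, h2, ← Finset.sum_sub_distrib]
  refine Ideal.sum_mem _ fun l _ => ?_
  rw [mul_pow, ← sub_mul]
  exact Ideal.mul_mem_right _ _ (pow_sub_mem' r R hR i l)

lemma sum_pow_mem2 {a : ℕ} (r R : ℕ) (hR : r ≤ R) (i : Fin a) (x : Fin a → PP k n m s) :
    (∑ l, X (l, i) * C (x l) : MvPolynomial (Fin a × Fin a) (PP k n m s)) ^ (p ^ R) -
      C (x i) ^ (p ^ R) ∈ fI k n m s a (p ^ r) := by
  have h2 : (C (x i) : MvPolynomial (Fin a × Fin a) (PP k n m s))
      ^ (p ^ R) = ∑ l, (if l = i then 1 else 0) * C (x l) ^ (p ^ R) := by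
    simp
  rw [sum_pow_char_pow, h2, ← Finset.sum_sub_distrib]
  refine Ideal.sum_mem _ fun l _ => ?_
  rw [mul_pow, ← sub_mul]
  exact Ideal.mul_mem_right _ _ (pow_sub_mem' r R hR l i)

variable {r r' : ℕ} (hr : r' ≤ r)

lemma coL_mB (hs : s ≤ n) : coL k n m s (mB k hs) ^ (p ^ r) - C (mB k hs) ^ (p ^ r) ∈
    fI k n m s n (p ^ r) := by
  rw [mB, AlgHom.map_det, RingHom.map_det, ← iterateFrobenius_def, ← iterateFrobenius_def,
    RingHom.map_det, RingHom.map_det]
  apply det_sub_mem
  intro i j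
  have h := sum_pow_mem (k := k) (m := m) (s := s) (p := p) r r le_rfl (Fin.castLE hs i)
    (fun l => X (Sum.inl (l, j)))
  simpa only [RingHom.mapMatrix_apply, AlgHom.mapMatrix_apply, Matrix.map_apply,
    Matrix.submatrix_apply, iterateFrobenius_def, id, Bm, Matrix.of_apply, coL, aeval_X,
    Sum.elim_inl] using h

lemma coR_mC (e : Fin s → Fin m) :
    coR k n m s (mC k e) ^ (p ^ r') - C (mC k e) ^ (p ^ r') ∈ fI k n m s m (p ^ r') := by
  rw [mC, AlgHom.map_det, RingHom.map_det, ← iterateFrobenius_def, ← iterateFrobenius_def,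
    RingHom.map_det, RingHom.map_det]
  apply det_sub_mem
  intro i j
  have h := sum_pow_mem2 (k := k) (n := n) (s := s) (p := p) r' r' le_rfl (e j)
    (fun l => X (Sum.inr (i, l)))
  simpa only [RingHom.mapMatrix_apply, AlgHom.mapMatrix_apply, Matrix.map_apply,
    Matrix.submatrix_apply, iterateFrobenius_def, id, Cm, Matrix.of_apply, coR, aeval_X,
    Sum.elim_inr] using h

include hr

lemma pow_memD (u : Fin n × Fin m) :
    (phi k n m s (X u)) ^ (p ^ r) ∈ InvD k n m s (p ^ r) (p ^ r') := by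
  refine ⟨Subalgebra.pow_mem _ (AlgHom.mem_range_self _ _) _, ?_, ?_⟩
  · have h1 : coL k n m s (phi k n m s (X u)) =
        ∑ i, X (u.1, i) * C (phi k n m s (X (i, u.2))) := by
      simp only [phi, coL, aeval_X, map_sum, map_mul, Sum.elim_inl, Sum.elim_inr,
        Finset.sum_mul, Finset.mul_sum]
      rw [Finset.sum_comm]
      refine Finset.sum_congr rfl fun i _ => Finset.sum_congr rfl fun l _ => ?_
      ring
    rw [map_pow, map_pow, h1]
    exact sum_pow_mem r r le_rfl u.1 (fun i => phi k n m s (X (i, u.2)))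
  · have h1 : coR k n m s (phi k n m s (X u)) =
        ∑ j, X (j, u.2) * C (phi k n m s (X (u.1, j))) := by
      simp only [phi, coR, aeval_X, map_sum, map_mul, Sum.elim_inl, Sum.elim_inr,
        Finset.mul_sum]
      rw [Finset.sum_comm]
      refine Finset.sum_congr rfl fun i _ => Finset.sum_congr rfl fun l _ => ?_
      ring
    rw [map_pow, map_pow, h1]
    exact sum_pow_mem2 r' r hr u.2 (fun j => phi k n m s (X (u.1, j)))

lemma z_memD (hs : s ≤ n) (t : Fin (p ^ (r - r')) → Fin s → Fin m) :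
    ∏ a, (mB k hs * mC k (t a)) ^ (p ^ r') ∈ InvD k n m s (p ^ r) (p ^ r') := by
  have hrr : p ^ (r - r') * p ^ r' = p ^ r := by
    rw [← pow_add, Nat.sub_add_cancel hr]
  refine ⟨Subalgebra.prod_mem _ fun a _ => Subalgebra.pow_mem _ (mem_range hs _) _, ?_, ?_⟩
  · have h1 : ∏ a, (mB k hs * mC k (t a)) ^ (p ^ r') =
        mB k hs ^ (p ^ r) * ∏ a, mC k (t a) ^ (p ^ r') := by
      simp only [mul_pow, Finset.prod_mul_distrib, Finset.prod_const, Finset.card_univ,
        Fintype.card_fin, ← pow_mul]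
      rw [mul_comm (p ^ r'), hrr]
    have h2 : coL k n m s (∏ a, mC k (t a) ^ (p ^ r')) = C (∏ a, mC k (t a) ^ (p ^ r')) := by
      simp only [map_prod, map_pow, coL_mC]
    rw [h1, map_mul, map_mul, h2, map_pow, map_pow, ← sub_mul]
    exact Ideal.mul_mem_right _ _ (coL_mB hs)
  · rw [map_prod, map_prod]
    apply prod_sub_mem
    intro a _
    rw [map_pow, map_pow, map_mul, map_mul, mul_pow, mul_pow, coR_mB, ← mul_sub]
    exact Ideal.mul_mem_left _ _ (coR_mC _)

end char

end Pool.Agent.Y212.Dk
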