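import Pool.Agent.Y212.Dk.Bas

set_option autoImplicit false
set_option linter.unusedSectionVars false

open MvPolynomial Matrix

universe u

namespace Pool.Agent.Y212.Dk

open Pool.Agent.Y212.Fk Pool.Agent.Y212.Pk

variable {k : Type u} [Field k] {n m s : ℕ}

/-- The function field. -/
abbrev FD (k : Type u) [Field k] (n m s : ℕ) := FractionRing (PP k n m s)

/-- The matrix `B` over the function field. -/
noncomputable def BK (k : Type u) [Field k] (n m s : ℕ) : Matrix (Fin n) (Fin s) (FD k n m s) :=
  (Bm k n m s).map (algebraMap _ _)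

/-- The matrix `C` over the function field. -/
noncomputable def CK (k : Type u) [Field k] (n m s : ℕ) : Matrix (Fin s) (Fin m) (FD k n m s) :=
  (Cm k n m s).map (algebraMap _ _)

lemma BK_apply (i : Fin n) (l : Fin s) : BK k n m s i l =
    algebraMap (PP k n m s) (FD k n m s) (X (Sum.inl (i, l))) := rfl

lemma CK_apply (l : Fin s) (j : Fin m) : CK k n m s l j =
    algebraMap (PP k n m s) (FD k n m s) (X (Sum.inr (l, j))) := rfl

/-- The chosen block of `C`. -/
noncomputable def Ce (k : Type u) [Field k] (n : ℕ) {m s : ℕ} (e : Fin s → Fin m) :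
    Matrix (Fin s) (Fin s) (FD k n m s) := (CK k n m s).submatrix id e

lemma det_Ce (e : Fin s → Fin m) :
    (Ce k n e).det = algebraMap (PP k n m s) (FD k n m s) (mC k e) := by
  rw [mC, RingHom.map_det]
  rfl

/-- The reduced matrix. -/
noncomputable def UD (k : Type u) [Field k] (n : ℕ) {m s : ℕ} (e : Fin s → Fin m) :
    Matrix (Fin s) (Fin m) (FD k n m s) := (Ce k n e)⁻¹ * CK k n m s

/-- The chosen columns of `B C`. -/
noncomputable def xe (k : Type u) [Field k] (n : ℕ) {m s : ℕ} (e : Fin s → Fin m) :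
    Matrix (Fin n) (Fin s) (FD k n m s) := BK k n m s * Ce k n e

/-- The matrix `B C`. -/
noncomputable def XD (k : Type u) [Field k] (n m s : ℕ) : Matrix (Fin n) (Fin m) (FD k n m s) :=
  BK k n m s * CK k n m s

lemma XD_apply (i : Fin n) (j : Fin m) : XD k n m s i j =
    algebraMap (PP k n m s) (FD k n m s) (phi k n m s (X (i, j))) := by
  rw [phi_X, XD, Matrix.mul_apply, Matrix.mul_apply, map_sum]
  simp only [map_mul]
  rfl

section fix

variable (e : Fin s → Fin m) (he : mC (n := n) k e ≠ 0)

include he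

lemma det_CeD : (Ce k n e).det ≠ 0 := by
  rw [det_Ce, Ne, FaithfulSMul.algebraMap_eq_zero_iff]
  exact he

lemma isUnit_Ce : IsUnit (Ce k n e).det := IsUnit.mk0 _ (det_CeD e he)

lemma e_injD : Function.Injective e := by
  intro a b hab
  by_contra hne
  apply he
  rw [mC]
  apply Matrix.det_zero_of_column_eq hne
  intro i
  simp [hab]

lemma UD_range (i l : Fin s) : UD k n e i (e l) = if i = l then 1 else 0 := by
  have h : (UD k n e).submatrix id e = 1 := by
    have h1 : (UD k n e).submatrix id e = (Ce k n e)⁻¹ * Ce k n e := by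
      ext1 a b
      simp [UD, Ce, Matrix.mul_apply]
    rw [h1, Matrix.nonsing_inv_mul _ (isUnit_Ce e he)]
  have h2 := congrFun (congrFun h i) l
  rw [Matrix.one_apply] at h2
  exact h2

lemma Ce_mul_UD : Ce k n e * UD k n e = CK k n m s := by
  rw [UD, ← Matrix.mul_assoc, Matrix.mul_nonsing_inv _ (isUnit_Ce e he), Matrix.one_mul]

lemma xe_mul_UD : xe k n e * UD k n e = XD k n m s := by
  rw [xe, Matrix.mul_assoc, Ce_mul_UD e he, XD]

lemma xe_mul_inv : xe k n e * (Ce k n e)⁻¹ = BK k n m s := by
  rw [xe, Matrix.mul_assoc, Matrix.mul_nonsing_inv _ (isUnit_Ce e he), Matrix.mul_one]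

lemma XD_sum (i : Fin n) (j : Fin m) :
    ∑ l, xe k n e i l * UD k n e l j = XD k n m s i j := by
  have h := congrFun (congrFun (xe_mul_UD e he) i) j
  rwa [Matrix.mul_apply] at h

lemma xe_eq (i : Fin n) (l : Fin s) : xe k n e i l = XD k n m s i (e l) := by
  rw [← XD_sum e he, Finset.sum_eq_single l]
  · rw [UD_range e he, if_pos rfl, mul_one]
  · intro l' _ hl
    rw [UD_range e he, if_neg hl, mul_zero]
  · intro h
    exact absurd (Finset.mem_univ _) h

lemma UD_eq_div (i : Fin s) (j : Fin m) :
    UD k n e i j = algebraMap (PP k n m s) (FD k n m s) (mC k (Function.update e i j)) /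
      algebraMap (PP k n m s) (FD k n m s) (mC k e) := by
  rw [← det_Ce, ← det_Ce, eq_div_iff (det_CeD e he)]
  have h1 : UD k n e i j = ((Ce k n e)⁻¹ *ᵥ (fun a => CK k n m s a j)) i := by
    rw [UD, Matrix.mul_apply]
    rfl
  have h2 : Ce k n (Function.update e i j) =
      (Ce k n e).updateCol i (fun a => CK k n m s a j) := by
    ext1 a b
    by_cases hb : b = i
    · subst hb
      simp [Ce]
    · simp [Ce, Matrix.updateCol_ne hb, Function.update_of_ne hb]
  rw [h1, h2, ← Matrix.cramer_apply, Matrix.inv_def, Matrix.smul_mulVec,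
    ← Matrix.cramer_eq_adjugate_mulVec, Pi.smul_apply, smul_eq_mul]
  have h3 := Ring.inverse_mul_cancel _ (isUnit_Ce e he)
  calc _ = (Ring.inverse (Ce k n e).det * (Ce k n e).det) *
        (Ce k n e).cramer (fun a => CK k n m s a j) i := by ring
    _ = _ := by rw [h3, one_mul]

lemma mC_div (e' : Fin s → Fin m) :
    algebraMap (PP k n m s) (FD k n m s) (mC k e') /
      algebraMap (PP k n m s) (FD k n m s) (mC k e) = ((UD k n e).submatrix id e').det := by
  rw [← det_Ce, ← det_Ce, div_eq_iff (det_CeD e he)]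
  have h1 : Ce k n e' = Ce k n e * (UD k n e).submatrix id e' := by
    have h2 := Ce_mul_UD e he
    ext1 i j
    have h3 := congrFun (congrFun h2 i) (e' j)
    rw [Matrix.mul_apply] at h3
    rw [Matrix.mul_apply]
    exact h3.symm
  rw [h1, Matrix.det_mul, mul_comm]

end fix

/-- The index set of the coordinates of the chart. -/
abbrev Tg (n : ℕ) {m s : ℕ} (e : Fin s → Fin m) :=
  (Fin n × Fin s) ⊕ {v : Fin s × Fin m // v.2 ∉ Set.range e}

/-- The coordinates of the chart without the Frobenius twist. -/
noncomputable def wD (k : Type u) [Field k] (n : ℕ) {m s : ℕ} (e : Fin s → Fin m) :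
    Tg n e → FD k n m s :=
  Sum.elim (fun u => xe k n e u.1 u.2) fun v => UD k n e v.1.1 v.1.2

open Classical in
/-- A transcendence basis of the function field. -/
noncomputable def w1 (k : Type u) [Field k] (n : ℕ) {m s : ℕ} (e : Fin s → Fin m) :
    Sg n m s → FD k n m s :=
  Sum.elim (fun u => xe k n e u.1 u.2)
    fun v => if v.2 ∈ Set.range e then CK k n m s v.1 v.2 else UD k n e v.1 v.2

section fix

variable (e : Fin s → Fin m) (he : mC (n := n) k e ≠ 0)

include he

lemma CK_mem (l : Fin s) (j : Fin m) :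
    CK k n m s l j ∈ Algebra.adjoin k (Set.range (w1 k n e)) := by
  have h1 : ∀ l l', CK k n m s l (e l') ∈ Algebra.adjoin k (Set.range (w1 k n e)) := by
    intro l l'
    have h : w1 k n e (Sum.inr (l, e l')) = CK k n m s l (e l') := if_pos ⟨l', rfl⟩
    rw [← h]
    exact Algebra.subset_adjoin ⟨_, rfl⟩
  by_cases hj : j ∈ Set.range e
  · obtain ⟨l', rfl⟩ := hj
    exact h1 l l'
  · have h2 := congrFun (congrFun (Ce_mul_UD e he) l) j
    rw [Matrix.mul_apply] at h2
    rw [← h2]
    refine Subalgebra.sum_mem _ fun l' _ => Subalgebra.mul_mem _ (h1 l l') ?_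
    have h : w1 k n e (Sum.inr (l', j)) = UD k n e l' j := if_neg hj
    rw [← h]
    exact Algebra.subset_adjoin ⟨_, rfl⟩

lemma isAlg_elt {x : FD k n m s} (hx : x ∈ Algebra.adjoin k (Set.range (w1 k n e))) :
    IsAlgebraic (Algebra.adjoin k (Set.range (w1 k n e))) x :=
  isAlgebraic_algebraMap (A := FD k n m s)
    (⟨x, hx⟩ : Algebra.adjoin k (Set.range (w1 k n e)))

lemma det_mem' {ι : Type*} [Fintype ι] [DecidableEq ι] (S : Subalgebra k (FD k n m s))
    (M : Matrix ι ι (FD k n m s)) (h : ∀ i j, M i j ∈ S) : M.det ∈ S := by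
  rw [Matrix.det_apply]
  refine Subalgebra.sum_mem _ fun σ _ => ?_
  rw [Units.smul_def]
  exact S.zsmul_mem (Subalgebra.prod_mem _ fun i _ => h _ _) _

lemma isAlg_BK (i : Fin n) (l : Fin s) :
    IsAlgebraic (Algebra.adjoin k (Set.range (w1 k n e))) (BK k n m s i l) := by
  have h1 := congrFun (congrFun (xe_mul_inv e he) i) l
  rw [Matrix.mul_apply] at h1
  rw [← h1]
  have hCe : ∀ a b, Ce k n e a b ∈ Algebra.adjoin k (Set.range (w1 k n e)) :=
    fun a b => CK_mem e he a (e b)
  have hadj : ∀ a b, (Ce k n e).adjugate a b ∈ Algebra.adjoin k (Set.range (w1 k n e)) := by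
    intro a b
    rw [Matrix.adjugate_apply]
    refine det_mem' e he _ _ fun x y => ?_
    by_cases hx : x = b
    · subst hx
      rw [Matrix.updateRow_self, Pi.single_apply]
      split_ifs
      · exact Subalgebra.one_mem _
      · exact Subalgebra.zero_mem _
    · rw [Matrix.updateRow_ne hx]
      exact hCe _ _
  have hdet : (Ce k n e).det ∈ Algebra.adjoin k (Set.range (w1 k n e)) :=
    det_mem' e he _ _ hCe
  have key : ∀ l', IsAlgebraic (Algebra.adjoin k (Set.range (w1 k n e)))
      (xe k n e i l' * (Ce k n e)⁻¹ l' l) := by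
    intro l'
    have hx : xe k n e i l' ∈ Algebra.adjoin k (Set.range (w1 k n e)) :=
      Algebra.subset_adjoin ⟨Sum.inl (i, l'), rfl⟩
    rw [Matrix.inv_def, Matrix.smul_apply, smul_eq_mul, Ring.inverse_eq_inv']
    exact (isAlg_elt e he hx).mul ((isAlg_elt e he hdet).inv.mul (isAlg_elt e he (hadj _ _)))
  have h0 : ∀ t : Finset (Fin s), IsAlgebraic (Algebra.adjoin k (Set.range (w1 k n e)))
      (∑ l' ∈ t, xe k n e i l' * (Ce k n e)⁻¹ l' l) := by
    classical
    intro t
    induction t using Finset.induction_on with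
    | empty => simpa using isAlgebraic_zero
    | insert a t ha ih =>
      rw [Finset.sum_insert ha]
      exact (key a).add ih
  exact h0 _

lemma isAlg_all :
    Algebra.IsAlgebraic (Algebra.adjoin k (Set.range (w1 k n e))) (FD k n m s) := by
  have hpoly : ∀ a : PP k n m s, IsAlgebraic (Algebra.adjoin k (Set.range (w1 k n e)))
      (algebraMap (PP k n m s) (FD k n m s) a) := by
    intro a
    induction a using MvPolynomial.induction_on with
    | C a =>
      have h : algebraMap (PP k n m s) (FD k n m s) (C a) = algebraMap k (FD k n m s) a :=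
        (IsScalarTower.algebraMap_apply k (PP k n m s) (FD k n m s) a).symm
      rw [h]
      exact isAlg_elt e he (Subalgebra.algebraMap_mem _ _)
    | add f g hf hg =>
      rw [map_add]
      exact hf.add hg
    | mul_X f v hf =>
      rw [map_mul]
      refine hf.mul ?_
      rcases v with v | v
      · exact isAlg_BK e he v.1 v.2
      · exact isAlg_elt e he (CK_mem e he v.1 v.2)
  refine ⟨fun x => ?_⟩
  obtain ⟨a, b, hb, rfl⟩ := IsFractionRing.div_surjective (A := PP k n m s) x
  rw [div_eq_mul_inv]
  exact (hpoly a).mul (hpoly b).inv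

lemma algebraicIndependent_w1 : AlgebraicIndependent k (w1 k n e) := by
  have h1 := isAlg_all e he
  have h0 : Algebra.IsAlgebraic (PP k n m s) (FD k n m s) :=
    IsLocalization.isAlgebraic _ (nonZeroDivisors (PP k n m s))
  have h2 : IsTranscendenceBasis k
      (fun v : Sg n m s => algebraMap (PP k n m s) (FD k n m s) (X v)) :=
    (IsTranscendenceBasis.mvPolynomial (Sg n m s) k).algebraMap_comp (A := FD k n m s)
  have h3 := h2.lift_cardinalMk_eq_trdeg
  exact (Algebra.IsAlgebraic.isTranscendenceBasis_of_lift_le_trdeg_of_finite k (w1 k n e)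
    h3.le).1

lemma algebraicIndependent_wD : AlgebraicIndependent k (wD k n e) := by
  have h1 := algebraicIndependent_w1 e he
  let ι : Tg n e → Sg n m s := Sum.map id Subtype.val
  have hι : Function.Injective ι := Sum.map_injective.2
    ⟨Function.injective_id, Subtype.val_injective⟩
  have h2 := h1.comp ι hι
  have h3 : w1 k n e ∘ ι = wD k n e := by
    funext v
    rcases v with v | v
    · rfl
    · exact if_neg v.2
  rwa [h3] at h2

end fix

end Pool.Agent.Y212.Dk
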