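import Pool.Agent.Y212.Dk.Cht

set_option autoImplicit false
set_option linter.unusedSectionVars false

open MvPolynomial Matrix

universe u

namespace Pool.Agent.Y212.Dk

open Pool.Agent.Y212.Fk Pool.Agent.Y212.Pk

variable {k : Type u} [Field k] {n m s : ℕ}

lemma coL_phi (u : Fin n × Fin m) : coL k n m s (phi k n m s (X u)) =
    ∑ i, X (u.1, i) * C (phi k n m s (X (i, u.2))) := by
  simp only [phi, coL, aeval_X, map_sum, map_mul, Sum.elim_inl, Sum.elim_inr,
    Finset.sum_mul, Finset.mul_sum]
  rw [Finset.sum_comm]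
  refine Finset.sum_congr rfl fun i _ => Finset.sum_congr rfl fun l _ => ?_
  ring

lemma coR_phi (u : Fin n × Fin m) : coR k n m s (phi k n m s (X u)) =
    ∑ j, X (j, u.2) * C (phi k n m s (X (u.1, j))) := by
  simp only [phi, coR, aeval_X, map_sum, map_mul, Sum.elim_inl, Sum.elim_inr,
    Finset.mul_sum]
  rw [Finset.sum_comm]
  refine Finset.sum_congr rfl fun i _ => Finset.sum_congr rfl fun l _ => ?_
  ring

/-- The points `1 + T * M` of the group. -/
noncomputable def evM {a : ℕ} (M : Matrix (Fin a) (Fin a) (FD k n m s)) :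
    MvPolynomial (Fin a × Fin a) (PP k n m s) →+* Polynomial (FD k n m s) :=
  eval₂Hom ((Polynomial.C).comp (algebraMap _ (FD k n m s))) fun u =>
    Polynomial.C (if u.1 = u.2 then 1 else 0) + Polynomial.X * Polynomial.C (M u.1 u.2)

lemma evM_X {a : ℕ} (M : Matrix (Fin a) (Fin a) (FD k n m s)) (u : Fin a × Fin a) :
    evM M (X u) = Polynomial.C (if u.1 = u.2 then 1 else 0) +
      Polynomial.X * Polynomial.C (M u.1 u.2) := by simp [evM]

lemma evM_C {a : ℕ} (M : Matrix (Fin a) (Fin a) (FD k n m s)) (f : PP k n m s) :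
    evM M (C f) = Polynomial.C (algebraMap _ (FD k n m s) f) := by simp [evM]

lemma dvd_evM {p : ℕ} [hp : Fact p.Prime] [CharP k p] {a : ℕ} (r : ℕ)
    (M : Matrix (Fin a) (Fin a) (FD k n m s))
    {f : MvPolynomial (Fin a × Fin a) (PP k n m s)} (hf : f ∈ fI k n m s a (p ^ r)) :
    Polynomial.X ^ (p ^ r) ∣ evM M f := by
  have hle : fI k n m s a (p ^ r) ≤
      Ideal.comap (evM M) (Ideal.span {Polynomial.X ^ (p ^ r)}) := by
    rw [fI, Ideal.span_le]
    rintro _ ⟨u, rfl⟩
    change evM M _ ∈ Ideal.span {Polynomial.X ^ (p ^ r)}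
    rw [Ideal.mem_span_singleton]
    have hch : CharP (FD k n m s) p := charP_of_injective_algebraMap (R := k)
      (FaithfulSMul.algebraMap_injective k (FD k n m s)) p
    have h2 : evM M (if u.1 = u.2 then 1 else 0) =
        Polynomial.C (if u.1 = u.2 then 1 else 0) := by
      split_ifs <;> simp
    rw [map_sub, map_pow, evM_X, h2, add_pow_char_pow, ← map_pow]
    have h3 : (if u.1 = u.2 then (1 : FD k n m s) else 0) ^ (p ^ r) =
        if u.1 = u.2 then 1 else 0 := by
      have : p ^ r ≠ 0 := (pow_pos hp.out.pos r).ne'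
      split_ifs
      · simp
      · exact zero_pow this
    rw [h3, add_sub_cancel_left, mul_pow]
    exact Dvd.intro _ rfl
  have h := hle hf
  rw [Ideal.mem_comap, Ideal.mem_span_singleton] at h
  exact h

open Classical in
/-- The map `(Y, U) ↦ Y U`. -/
noncomputable def thD (k : Type u) [Field k] (n : ℕ) {m s : ℕ} (e : Fin s → Fin m) :
    MvPolynomial (Fin n × Fin m) k →ₐ[k] MvPolynomial (Tg n e) k :=
  aeval fun v => ∑ l, X (Sum.inl (v.1, l)) *
    (if h : v.2 ∉ Set.range e then X (Sum.inr ⟨(l, v.2), h⟩) else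
      (if e l = v.2 then 1 else 0))

/-- The chart point. -/
noncomputable def psD (k : Type u) [Field k] (n : ℕ) {m s : ℕ} (e : Fin s → Fin m) :
    MvPolynomial (Tg n e) k →ₐ[k] FD k n m s := aeval (wD k n e)

open Classical in
/-- The chart point moved at the coordinate `v`. -/
noncomputable def chD (k : Type u) [Field k] (n : ℕ) {m s : ℕ} (e : Fin s → Fin m)
    (v : Tg n e) : MvPolynomial (Tg n e) k →ₐ[k] Polynomial (FD k n m s) :=
  aeval fun u => Polynomial.C (wD k n e u) + if u = v then Polynomial.X else 0

open Classical in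
lemma chD_eq (e : Fin s → Fin m) (v : Tg n e) (f : MvPolynomial (Tg n e) k) :
    chD k n e v f = Polynomial.mapAlgHom (psD k n e) (shift v f) := by
  have h : chD k n e v = (Polynomial.mapAlgHom (psD k n e)).comp (shift v) := by
    apply MvPolynomial.algHom_ext
    intro u
    rw [AlgHom.comp_apply, chD, aeval_X, shift, aeval_X, map_add]
    congr 1
    · simp [psD]
    · split_ifs <;> simp
  rw [h]
  rfl

section fix

variable (e : Fin s → Fin m) (he : mC (n := n) k e ≠ 0)

include he

lemma psD_inj : Function.Injective (psD k n e) := algebraicIndependent_wD e he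

lemma psD_theta (f : MvPolynomial (Fin n × Fin m) k) :
    psD k n e (thD k n e f) = algebraMap _ (FD k n m s) (phi k n m s f) := by
  classical
  have h : (psD k n e).comp (thD k n e) =
      (IsScalarTower.toAlgHom k (PP k n m s) (FD k n m s)).comp (phi k n m s) := by
    apply MvPolynomial.algHom_ext
    intro v
    rw [AlgHom.comp_apply, thD, aeval_X, map_sum]
    have h1 : ∀ l, psD k n e (X (Sum.inl (v.1, l)) *
        (if h : v.2 ∉ Set.range e then X (Sum.inr ⟨(l, v.2), h⟩) else
          (if e l = v.2 then 1 else 0))) = xe k n e v.1 l * UD k n e l v.2 := by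
      intro l
      rw [map_mul]
      congr 1
      · simp [psD, wD]
      · by_cases hv : v.2 ∉ Set.range e
        · rw [dif_pos hv]
          simp [psD, wD]
        · rw [dif_neg hv]
          rw [not_not] at hv
          obtain ⟨l', hl'⟩ := hv
          rw [← hl', UD_range e he]
          by_cases hll : l = l'
          · rw [hll, if_pos rfl, if_pos rfl, map_one]
          · rw [if_neg (fun h => hll (e_injD e he h)), if_neg hll, map_zero]
    rw [Finset.sum_congr rfl fun l _ => h1 l, XD_sum e he, XD_apply]
    rfl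
  exact DFunLike.congr_fun h f

lemma chD_theta_X (v : Tg n e) (u : Fin n × Fin m) (c : Fin s → Polynomial (FD k n m s))
    (d : Fin s → Polynomial (FD k n m s))
    (hc : ∀ l, chD k n e v (X (Sum.inl (u.1, l))) = Polynomial.C (xe k n e u.1 l) + c l)
    (hd : ∀ l (h : u.2 ∉ Set.range e), chD k n e v (X (Sum.inr ⟨(l, u.2), h⟩)) =
      Polynomial.C (UD k n e l u.2) + d l)
    (hd0 : u.2 ∈ Set.range e → ∀ l, d l = 0) (hcd : ∀ l, c l * d l = 0) :
    chD k n e v (thD k n e (X u)) = Polynomial.C (XD k n m s u.1 u.2) +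
      (∑ l, c l * Polynomial.C (UD k n e l u.2) + ∑ l, Polynomial.C (xe k n e u.1 l) * d l) := by
  classical
  rw [thD, aeval_X, map_sum]
  have h1 : ∀ l, chD k n e v (X (Sum.inl (u.1, l)) *
        (if h : u.2 ∉ Set.range e then X (Sum.inr ⟨(l, u.2), h⟩) else
          (if e l = u.2 then 1 else 0))) =
      Polynomial.C (xe k n e u.1 l * UD k n e l u.2) +
        (c l * Polynomial.C (UD k n e l u.2) + Polynomial.C (xe k n e u.1 l) * d l) := by
    intro l
    rw [map_mul, hc]
    by_cases hv : u.2 ∉ Set.range e
    · rw [dif_pos hv, hd, map_mul]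
      linear_combination hcd l
    · rw [dif_neg hv]
      rw [not_not] at hv
      rw [hd0 hv l]
      obtain ⟨l', hl'⟩ := hv
      rw [← hl', UD_range e he]
      by_cases hll : l = l'
      · rw [hll, if_pos rfl, if_pos rfl, map_one, map_one]
        simp
      · rw [if_neg (fun h => hll (e_injD e he h)), if_neg hll, map_zero, map_zero]
        simp
  rw [Finset.sum_congr rfl fun l _ => h1 l, Finset.sum_add_distrib, ← map_sum,
    XD_sum e he, Finset.sum_add_distrib]

end fix

lemma mB_ne (hs : s ≤ n) : mB (m := m) k hs ≠ 0 := by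
  classical
  intro h
  let φ : PP k n m s →+* k :=
    eval (Sum.elim (fun u => if (u.1 : ℕ) = (u.2 : ℕ) then 1 else 0) fun _ => 0)
  have h1 : φ (mB k hs) = 1 := by
    rw [mB, RingHom.map_det]
    have h2 : φ.mapMatrix ((Bm k n m s).submatrix (Fin.castLE hs) id) = 1 := by
      ext1 i j
      simp [φ, Bm, Matrix.one_apply, Fin.ext_iff]
    rw [h2, Matrix.det_one]
  rw [h, map_zero] at h1
  exact zero_ne_one h1

lemma exists_mC_ne (hs : s ≤ m) : ∃ e : Fin s → Fin m, mC (n := n) k e ≠ 0 := by
  classical
  refine ⟨Fin.castLE hs, fun h => ?_⟩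
  let φ : PP k n m s →+* k :=
    eval (Sum.elim (fun _ => 0) fun u => if (u.1 : ℕ) = (u.2 : ℕ) then 1 else 0)
  have h1 : φ (mC k (Fin.castLE hs)) = 1 := by
    rw [mC, RingHom.map_det]
    have h2 : φ.mapMatrix ((Cm k n m s).submatrix id (Fin.castLE hs)) = 1 := by
      ext1 i j
      simp [φ, Cm, Matrix.one_apply, Fin.ext_iff]
    rw [h2, Matrix.det_one]
  rw [h, map_zero] at h1
  exact zero_ne_one h1

/-- A left inverse of the chosen columns. -/
lemma exists_left (hs : s ≤ n) (e : Fin s → Fin m) (he : mC (n := n) k e ≠ 0) :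
    ∃ L : Matrix (Fin s) (Fin n) (FD k n m s), L * xe k n e = 1 := by
  classical
  let S : Matrix (Fin s) (Fin n) (FD k n m s) :=
    Matrix.of fun a i => if Fin.castLE hs a = i then 1 else 0
  have h1 : S * xe k n e = (xe k n e).submatrix (Fin.castLE hs) id := by
    ext1 a l
    rw [Matrix.mul_apply]
    simp [S]
  have h2 : IsUnit ((xe k n e).submatrix (Fin.castLE hs) id).det := by
    have h3 : (xe k n e).submatrix (Fin.castLE hs) id =
        (BK k n m s).submatrix (Fin.castLE hs) id * Ce k n e := by
      ext1 a l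
      rw [Matrix.mul_apply, Matrix.submatrix_apply, xe, Matrix.mul_apply]
      rfl
    have h4 : ((BK k n m s).submatrix (Fin.castLE hs) id).det =
        algebraMap (PP k n m s) (FD k n m s) (mB k hs) := by
      rw [mB, RingHom.map_det]
      rfl
    rw [h3, Matrix.det_mul, h4]
    refine IsUnit.mk0 _ (mul_ne_zero ?_ (det_CeD e he))
    rw [Ne, FaithfulSMul.algebraMap_eq_zero_iff]
    exact mB_ne hs
  refine ⟨((xe k n e).submatrix (Fin.castLE hs) id)⁻¹ * S, ?_⟩
  rw [Matrix.mul_assoc, h1, Matrix.nonsing_inv_mul _ h2]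

section fix2

variable (hs : s ≤ n) (e : Fin s → Fin m) (he : mC (n := n) k e ≠ 0)

include he

lemma evL_coL (i0 : Fin n) (l0 : Fin s) (L : Matrix (Fin s) (Fin n) (FD k n m s))
    (hL : L * xe k n e = 1) (f : MvPolynomial (Fin n × Fin m) k) :
    evM (Matrix.of fun i j => if i = i0 then L l0 j else 0) (coL k n m s (phi k n m s f)) =
      chD k n e (Sum.inl (i0, l0)) (thD k n e f) := by
  classical
  have hLX : L * XD k n m s = UD k n e := by
    rw [← xe_mul_UD e he, ← Matrix.mul_assoc, hL, Matrix.one_mul]
  have h : ((evM (Matrix.of fun i j => if i = i0 then L l0 j else 0)).comp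
      ((coL k n m s).comp (phi k n m s)).toRingHom) =
      ((chD k n e (Sum.inl (i0, l0))).comp (thD k n e)).toRingHom := by
    apply MvPolynomial.ringHom_ext
    · intro a
      have h1 : coL k n m s (phi k n m s (C a)) = C (C a) :=
        ((coL k n m s).comp (phi k n m s)).commutes a
      have h2 : chD k n e (Sum.inl (i0, l0)) (thD k n e (C a)) = algebraMap k _ a :=
        ((chD k n e (Sum.inl (i0, l0))).comp (thD k n e)).commutes a
      change evM _ (coL k n m s (phi k n m s (C a))) = chD k n e (Sum.inl (i0, l0))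
        (thD k n e (C a))
      rw [h1, h2, evM_C]
      rfl
    · intro v
      change evM _ (coL k n m s (phi k n m s (X v))) = chD k n e (Sum.inl (i0, l0))
        (thD k n e (X v))
      rw [chD_theta_X e he (Sum.inl (i0, l0)) v
        (fun l => if (v.1, l) = (i0, l0) then Polynomial.X else 0) (fun _ => 0)]
      · rw [coL_phi, map_sum]
        have h2 : ∀ i, evM (Matrix.of fun i j => if i = i0 then L l0 j else 0)
            (X (v.1, i) * C (phi k n m s (X (i, v.2)))) =
            Polynomial.C ((if v.1 = i then 1 else 0) * XD k n m s i v.2) + Polynomial.X *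
              Polynomial.C ((if v.1 = i0 then L l0 i else 0) * XD k n m s i v.2) := by
          intro i
          rw [map_mul, evM_X, evM_C, ← XD_apply, map_mul, map_mul, Matrix.of_apply]
          ring
        rw [Finset.sum_congr rfl fun l _ => h2 l, Finset.sum_add_distrib,
          ← map_sum, ← Finset.mul_sum, ← map_sum]
        congr 1
        · congr 1
          simp
        · simp only [mul_zero, Finset.sum_const_zero, add_zero]
          by_cases hv : v.1 = i0
          · simp only [if_pos hv]
            rw [Finset.sum_eq_single l0]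
            · rw [if_pos (show (v.1, l0) = (i0, l0) from Prod.ext hv rfl)]
              congr 2
              have h3 := congrFun (congrFun hLX l0) v.2
              rw [Matrix.mul_apply] at h3
              exact h3
            · intro l _ hl
              rw [if_neg (fun h => hl (congrArg Prod.snd h)), zero_mul]
            · intro h
              exact absurd (Finset.mem_univ _) h
          · simp only [if_neg hv, zero_mul, Finset.sum_const_zero, map_zero, mul_zero]
            symm
            apply Finset.sum_eq_zero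
            intro l _
            rw [if_neg (fun h => hv (congrArg Prod.fst h)), zero_mul]
      · intro l
        rw [chD, aeval_X]
        congr 1
        by_cases hl : (v.1, l) = (i0, l0)
        · rw [if_pos hl, if_pos (by rw [hl])]
        · rw [if_neg hl, if_neg (fun h => hl (Sum.inl.inj h))]
      · intro l hl
        rw [chD, aeval_X, if_neg (by simp)]
        rfl
      · intro _ _
        rfl
      · intro l
        rw [mul_zero]
  exact DFunLike.congr_fun h f

lemma evR_coR (l0 : Fin s) (j0 : Fin m) (hj0 : j0 ∉ Set.range e)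
    (f : MvPolynomial (Fin n × Fin m) k) :
    evM (Matrix.of fun i j => if i = e l0 ∧ j = j0 then 1 else 0)
      (coR k n m s (phi k n m s f)) =
      chD k n e (Sum.inr ⟨(l0, j0), hj0⟩) (thD k n e f) := by
  classical
  have h : ((evM (Matrix.of fun i j => if i = e l0 ∧ j = j0 then 1 else 0)).comp
      ((coR k n m s).comp (phi k n m s)).toRingHom) =
      ((chD k n e (Sum.inr ⟨(l0, j0), hj0⟩)).comp (thD k n e)).toRingHom := by
    apply MvPolynomial.ringHom_ext
    · intro a
      have h1 : coR k n m s (phi k n m s (C a)) = C (C a) :=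
        ((coR k n m s).comp (phi k n m s)).commutes a
      have h2 : chD k n e (Sum.inr ⟨(l0, j0), hj0⟩) (thD k n e (C a)) = algebraMap k _ a :=
        ((chD k n e (Sum.inr ⟨(l0, j0), hj0⟩)).comp (thD k n e)).commutes a
      change evM _ (coR k n m s (phi k n m s (C a))) = chD k n e (Sum.inr ⟨(l0, j0), hj0⟩)
        (thD k n e (C a))
      rw [h1, h2, evM_C]
      rfl
    · intro v
      change evM _ (coR k n m s (phi k n m s (X v))) = chD k n e (Sum.inr ⟨(l0, j0), hj0⟩)
        (thD k n e (X v))
      rw [chD_theta_X e he (Sum.inr ⟨(l0, j0), hj0⟩) v (fun _ => 0)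
        (fun l => if (l, v.2) = (l0, j0) then Polynomial.X else 0)]
      · rw [coR_phi, map_sum]
        have h2 : ∀ j, evM (Matrix.of fun i j => if i = e l0 ∧ j = j0 then 1 else 0)
            (X (j, v.2) * C (phi k n m s (X (v.1, j)))) =
            Polynomial.C ((if j = v.2 then 1 else 0) * XD k n m s v.1 j) + Polynomial.X *
              Polynomial.C ((if j = e l0 ∧ v.2 = j0 then 1 else 0) * XD k n m s v.1 j) := by
          intro i
          rw [map_mul, evM_X, evM_C, ← XD_apply, map_mul, map_mul, Matrix.of_apply]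
          ring
        rw [Finset.sum_congr rfl fun l _ => h2 l, Finset.sum_add_distrib,
          ← map_sum, ← Finset.mul_sum, ← map_sum]
        congr 1
        · congr 1
          simp
        · simp only [zero_mul, Finset.sum_const_zero, zero_add]
          by_cases hv : v.2 = j0
          · rw [Finset.sum_eq_single (e l0), Finset.sum_eq_single l0]
            · rw [if_pos ⟨rfl, hv⟩, if_pos (show (l0, v.2) = (l0, j0) from Prod.ext rfl hv), one_mul,
                xe_eq e he, mul_comm]
            · intro l _ hl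
              rw [if_neg (fun h => hl (congrArg Prod.fst h)), mul_zero]
            · intro h
              exact absurd (Finset.mem_univ _) h
            · intro j _ hj
              rw [if_neg (fun h => hj h.1), zero_mul]
            · intro h
              exact absurd (Finset.mem_univ _) h
          · have h4 : ∀ l, (if (l, v.2) = (l0, j0) then
                (Polynomial.X : Polynomial (FD k n m s)) else 0) = 0 :=
              fun l => if_neg (fun h => hv (congrArg Prod.snd h))
            have h5 : ∀ j, (if j = e l0 ∧ v.2 = j0 then (1 : FD k n m s) else 0) = 0 :=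
              fun j => if_neg (fun h => hv h.2)
            simp only [h4, h5, zero_mul, mul_zero, Finset.sum_const_zero, map_zero]
      · intro l
        rw [chD, aeval_X, if_neg (by simp)]
        rfl
      · intro l hl
        rw [chD, aeval_X]
        congr 1
        by_cases h6 : (l, v.2) = (l0, j0)
        · rw [if_pos h6, if_pos]
          congr 1
          exact Subtype.ext h6
        · rw [if_neg h6, if_neg]
          intro h7
          exact h6 (congrArg Subtype.val (Sum.inr.inj h7))
      · intro hv l
        apply if_neg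
        intro h
        apply hj0
        have h7 : v.2 = j0 := congrArg Prod.snd h
        rwa [h7] at hv
      · intro l
        rw [zero_mul]
  exact DFunLike.congr_fun h f

variable {p : ℕ} [hp : Fact p.Prime] [CharP k p] (r r' : ℕ)

include hp hs

open Classical in
lemma coeffL {f : MvPolynomial (Fin n × Fin m) k}
    (hf : phi k n m s f ∈ InvD k n m s (p ^ r) (p ^ r')) (i0 : Fin n) (l0 : Fin s) (t : ℕ)
    (h0 : 0 < t) (ht : t < p ^ r) :
    (shift (Sum.inl (i0, l0)) (thD k n e f)).coeff t = 0 := by
  obtain ⟨L, hL⟩ := exists_left (k := k) hs e he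
  apply psD_inj e he
  rw [map_zero]
  have h1 := dvd_evM r (Matrix.of fun i j => if i = i0 then L l0 j else 0) (mem_InvD.1 hf).2.1
  rw [map_sub, evL_coL e he i0 l0 L hL, evM_C, chD_eq] at h1
  have h2 := (Polynomial.X_pow_dvd_iff.1 h1) t ht
  rw [Polynomial.coeff_sub, Polynomial.coeff_C_of_ne_zero h0.ne', sub_zero] at h2
  rw [← h2]
  simp

open Classical in
lemma coeffR {f : MvPolynomial (Fin n × Fin m) k}
    (hf : phi k n m s f ∈ InvD k n m s (p ^ r) (p ^ r')) (l0 : Fin s) (j0 : Fin m)
    (hj0 : j0 ∉ Set.range e) (t : ℕ) (h0 : 0 < t) (ht : t < p ^ r') :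
    (shift (Sum.inr ⟨(l0, j0), hj0⟩ : Tg n e) (thD k n e f)).coeff t = 0 := by
  apply psD_inj e he
  rw [map_zero]
  have h1 := dvd_evM r' (Matrix.of fun i j => if i = e l0 ∧ j = j0 then 1 else 0)
    (mem_InvD.1 hf).2.2
  rw [map_sub, evR_coR e he l0 j0 hj0, evM_C, chD_eq] at h1
  have h2 := (Polynomial.X_pow_dvd_iff.1 h1) t ht
  rw [Polynomial.coeff_sub, Polynomial.coeff_C_of_ne_zero h0.ne', sub_zero] at h2
  rw [← h2]
  simp

lemma algebraMap_memD {f : PP k n m s} (hf : f ∈ InvD k n m s (p ^ r) (p ^ r')) :
    algebraMap _ (FD k n m s) f ∈ Algebra.adjoin k (Set.range fun v : Tg n e =>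
      wD k n e v ^ (Sum.elim (fun _ => p ^ r) (fun _ => p ^ r') v : ℕ)) := by
  classical
  obtain ⟨F, rfl⟩ := (mem_InvD.1 hf).1
  change algebraMap _ (FD k n m s) (phi k n m s F) ∈ _
  rw [← psD_theta e he]
  have h1 : thD k n e F ∈ Algebra.adjoin k (Set.range fun v : Tg n e =>
      (if True then X v ^ (Sum.elim (fun _ => p ^ r) (fun _ => p ^ r') v : ℕ) else X v :
        MvPolynomial (Tg n e) k)) := by
    apply mem_adjoin_of_dvd' (fun _ : Tg n e => True)
      (fun v => Sum.elim (fun _ => p ^ r) (fun _ => p ^ r') v)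
    intro d hd v _
    rcases v with ⟨i0, l0⟩ | ⟨⟨l0, j0⟩, hj0⟩
    · exact dvd_of_shift hp.out _ _ (fun t h0 ht => coeffL hs e he r r' hf i0 l0 t h0 ht) d hd
    · exact dvd_of_shift hp.out _ _
        (fun t h0 ht => coeffR hs e he r r' hf l0 j0 hj0 t h0 ht) d hd
  have h3 : psD k n e (thD k n e F) ∈ (Algebra.adjoin k (Set.range fun v : Tg n e =>
      (if True then X v ^ (Sum.elim (fun _ => p ^ r) (fun _ => p ^ r') v : ℕ) else X v :
        MvPolynomial (Tg n e) k))).map (psD k n e) := ⟨_, h1, rfl⟩
  rw [AlgHom.map_adjoin] at h3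
  refine Algebra.adjoin_mono ?_ h3
  rintro _ ⟨_, ⟨v, rfl⟩, rfl⟩
  refine ⟨v, ?_⟩
  simp [psD]

end fix2

end Pool.Agent.Y212.Dk
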