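import Pool.Agent.Y212.Dk.Inv
import Pool.Agent.Y212.Pk.Top

set_option autoImplicit false
set_option linter.unusedSectionVars false

open MvPolynomial Matrix AlgebraicGeometry CategoryTheory Pool.Agent.H920R2

universe u

namespace Pool.Agent.Y212.Dk

open Pool.Agent.Y212.Fk Pool.Agent.Y212.Pk

variable {k : Type u} [Field k] {n m s : ℕ}

/-- A subalgebra of the image of a polynomial ring which contains powers of the images of the
variables is of finite type. -/
lemma finiteType_of_pow' {σ τ : Type} [Finite σ] [Finite τ]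
    (φ : MvPolynomial σ k →ₐ[k] MvPolynomial τ k)
    (A : Subalgebra k (MvPolynomial τ k)) (hA : A ≤ φ.range) {q : ℕ}
    (hq : 0 < q) (h : ∀ i, (φ (X i)) ^ q ∈ A) : Algebra.FiniteType k A := by
  let A' : Subalgebra k φ.range := A.comap φ.range.val
  have e : A' ≃ₐ[k] A := by
    refine AlgEquiv.ofBijective
      ((φ.range.val.comp A'.val).codRestrict A fun x => x.2) ⟨?_, ?_⟩
    · intro x y hxy
      apply Subtype.ext
      apply Subtype.ext
      exact congrArg (fun z : A => (z : MvPolynomial τ k)) hxy
    · intro x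
      exact ⟨⟨⟨x.1, hA x.2⟩, x.2⟩, rfl⟩
  have hX : ∀ i, IsIntegral A' (φ.rangeRestrict (X i)) := by
    intro i
    refine ⟨Polynomial.X ^ q - Polynomial.C ⟨φ.rangeRestrict (X i) ^ q, h i⟩,
      Polynomial.monic_X_pow_sub_C _ hq.ne', ?_⟩
    rw [Polynomial.eval₂_sub, Polynomial.eval₂_pow, Polynomial.eval₂_X, Polynomial.eval₂_C]
    exact sub_self _
  have hft : Algebra.FiniteType k φ.range :=
    Algebra.FiniteType.of_surjective φ.rangeRestrict φ.rangeRestrict_surjective
  have h1 : Algebra.IsIntegral A' φ.range := by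
    constructor
    intro b
    obtain ⟨f, rfl⟩ := φ.rangeRestrict_surjective b
    induction f using MvPolynomial.induction_on with
    | C a =>
      have h2 : φ.rangeRestrict (C a) = algebraMap A' φ.range (algebraMap k A' a) :=
        φ.rangeRestrict.commutes a
      rw [h2]
      exact isIntegral_algebraMap
    | add p q hp hq =>
      rw [map_add]
      exact hp.add hq
    | mul_X p i hp =>
      rw [map_mul]
      exact hp.mul (hX i)
  have h2 : Algebra.FiniteType A' φ.range := by
    apply Algebra.FiniteType.of_restrictScalars_finiteType k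
  have h3 := @Algebra.IsIntegral.finite A' φ.range _ _ _ h1 h2
  have h4 : Algebra.FiniteType k A' := by
    refine ⟨?_⟩
    refine fg_of_fg_of_fg k A' φ.range hft.1 h3.1 ?_
    exact Subtype.val_injective
  exact h4.equiv e

variable {p : ℕ} [hp : Fact p.Prime] [CharP k p] {r r' : ℕ}

/-- The generators of the ideal. -/
noncomputable def zD (k : Type u) [Field k] [CharP k p] (n m s : ℕ) (hr : r' ≤ r) (hs : s ≤ n)
    (t : Fin (p ^ (r - r')) → Fin s → Fin m) : InvD k n m s (p ^ r) (p ^ r') :=
  ⟨∏ a, (mB k hs * mC k (t a)) ^ (p ^ r'), z_memD hr hs t⟩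

include hp in
theorem hasResolutionD (hr : r' ≤ r) (hsn : s ≤ n) (hsm : s ≤ m) :
    HasResolution (X := Spec (CommRingCat.of (InvD k n m s (p ^ r) (p ^ r'))))
      (Spec.map (CommRingCat.ofHom (algebraMap k (InvD k n m s (p ^ r) (p ^ r'))))) := by
  classical
  have hQ : 0 < p ^ (r - r') := pow_pos hp.out.pos _
  have hq' : 0 < p ^ r' := pow_pos hp.out.pos _
  have hch : CharP (FD k n m s) p := charP_of_injective_algebraMap (R := k)
    (FaithfulSMul.algebraMap_injective k (FD k n m s)) p
  let g : InvD k n m s (p ^ r) (p ^ r') →ₐ[k] FD k n m s :=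
    (IsScalarTower.toAlgHom k (PP k n m s) (FD k n m s)).comp
      (InvD k n m s (p ^ r) (p ^ r')).val
  have hg : Function.Injective g := by
    intro a b hab
    apply Subtype.ext
    exact IsFractionRing.injective (PP k n m s) (FD k n m s) hab
  have hB0 : algebraMap (PP k n m s) (FD k n m s) (mB k hsn) ≠ 0 := by
    rw [Ne, FaithfulSMul.algebraMap_eq_zero_iff]
    exact mB_ne hsn
  have hgz : ∀ t, g (zD k n m s hr hsn t) =
      ∏ a, (algebraMap (PP k n m s) (FD k n m s) (mB k hsn) *
        algebraMap (PP k n m s) (FD k n m s) (mC k (t a))) ^ (p ^ r') := by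
    intro t
    change algebraMap _ (FD k n m s) (∏ a, (mB k hsn * mC k (t a)) ^ (p ^ r')) = _
    rw [map_prod]
    refine Finset.prod_congr rfl fun a _ => ?_
    rw [map_pow, map_mul]
  have hz0 : ∀ e : Fin s → Fin m, zD k n m s hr hsn (fun _ => e) ≠ 0 ↔
      mC (n := n) k e ≠ 0 := by
    intro e
    rw [← map_ne_zero_iff g hg, hgz, Finset.prod_const, Finset.card_univ, Fintype.card_fin,
      Ne, pow_eq_zero_iff hQ.ne', pow_eq_zero_iff hq'.ne', mul_eq_zero, not_or,
      FaithfulSMul.algebraMap_eq_zero_iff, FaithfulSMul.algebraMap_eq_zero_iff]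
    exact ⟨fun h => h.2, fun h => ⟨mB_ne hsn, h⟩⟩
  have hdiv : ∀ (t : Fin (p ^ (r - r')) → Fin s → Fin m) (e : Fin s → Fin m),
      g (zD k n m s hr hsn t) / g (zD k n m s hr hsn fun _ => e) =
        ∏ a, (algebraMap (PP k n m s) (FD k n m s) (mC k (t a)) /
          algebraMap (PP k n m s) (FD k n m s) (mC k e)) ^ (p ^ r') := by
    intro t e
    rw [hgz, hgz, ← Finset.prod_div_distrib]
    refine Finset.prod_congr rfl fun a _ => ?_
    rw [← div_pow, mul_div_mul_left _ _ hB0]
  refine hasResolution_of_charts g hg (zD k n m s hr hsn) (Set.range fun e _ => e) ?_ ?_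
  · intro V hV
    obtain ⟨e0, he0⟩ := exists_mC_ne (k := k) (n := n) hsm
    obtain ⟨e, -, he⟩ := Finset.exists_max_image (Finset.univ : Finset (Fin s → Fin m))
      (fun e => V.valuation (algebraMap (PP k n m s) (FD k n m s) (mC k e)))
      ⟨e0, Finset.mem_univ _⟩
    have hne : mC (n := n) k e ≠ 0 := by
      intro h
      have h1 := he e0 (Finset.mem_univ _)
      rw [h, map_zero, map_zero, le_zero_iff, Valuation.zero_iff,
        FaithfulSMul.algebraMap_eq_zero_iff] at h1
      exact he0 h1
    refine ⟨_, ⟨e, rfl⟩, (hz0 e).2 hne, fun t => ?_⟩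
    rw [hdiv]
    refine prod_mem fun a _ => pow_mem ?_ _
    rw [← ValuationSubring.valuation_le_one_iff, map_div₀]
    exact div_le_one_of_le₀ (he _ (Finset.mem_univ _)) zero_le
  · rintro _ ⟨e, rfl⟩ hs
    have he : mC (n := n) k e ≠ 0 := (hz0 e).1 hs
    have hU : ∀ l j, UD k n e l j ^ (p ^ r') ∈ Algebra.adjoin k (Set.range fun v : Tg n e =>
        wD k n e v ^ (Sum.elim (fun _ => p ^ r) (fun _ => p ^ r') v : ℕ)) := by
      intro l j
      by_cases hj : j ∈ Set.range e
      · obtain ⟨l', rfl⟩ := hj
        rw [UD_range e he]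
        refine Subalgebra.pow_mem _ ?_ _
        split_ifs
        · exact Subalgebra.one_mem _
        · exact Subalgebra.zero_mem _
      · apply Algebra.subset_adjoin
        exact ⟨Sum.inr ⟨(l, j), hj⟩, rfl⟩
    refine ⟨Tg n e, inferInstance, fun v =>
      wD k n e v ^ (Sum.elim (fun _ => p ^ r) (fun _ => p ^ r') v : ℕ), ?_, ?_, ?_, ?_⟩
    · have h1 := (algebraicIndependent_wD e he).polynomial_aeval_of_transcendental
        (f := fun v : Tg n e =>
          (Polynomial.X ^ (Sum.elim (fun _ => p ^ r) (fun _ => p ^ r') v : ℕ) :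
            Polynomial k)) ?_
      · simpa only [map_pow, Polynomial.aeval_X] using h1
      · intro v
        rcases v with v | v
        · exact (Polynomial.transcendental_X k).pow (pow_pos hp.out.pos _)
        · exact (Polynomial.transcendental_X k).pow (pow_pos hp.out.pos _)
    · intro a
      exact algebraMap_memD hsn e he r r' a.2
    · intro t
      rw [hdiv]
      refine Subalgebra.prod_mem _ fun a _ => ?_
      rw [mC_div e he, ← iterateFrobenius_def, RingHom.map_det]
      refine det_mem' e he _ _ fun i j => ?_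
      rw [RingHom.mapMatrix_apply, Matrix.map_apply, iterateFrobenius_def]
      exact hU _ _
    · intro v
      rcases v with v | v
      · apply Algebra.subset_adjoin
        left
        refine ⟨⟨phi k n m s (X (v.1, e v.2)) ^ (p ^ r), pow_memD hr _⟩, ?_⟩
        change algebraMap (PP k n m s) (FD k n m s)
          (phi k n m s (X (v.1, e v.2)) ^ (p ^ r)) = xe k n e v.1 v.2 ^ (p ^ r)
        rw [map_pow, ← XD_apply, xe_eq e he]
      · change UD k n e v.1.1 v.1.2 ^ (p ^ r') ∈ _
        rw [UD_eq_div e he]
        apply Algebra.subset_adjoin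
        right
        refine ⟨fun a => if a = ⟨0, hQ⟩ then Function.update e v.1.1 v.1.2 else e, ?_⟩
        change g _ / g _ = _
        rw [hdiv, Finset.prod_eq_single (⟨0, hQ⟩ : Fin (p ^ (r - r')))]
        · rw [if_pos rfl]
        · intro a _ ha
          have hne : algebraMap (PP k n m s) (FD k n m s) (mC k e) ≠ 0 := by
            rw [Ne, FaithfulSMul.algebraMap_eq_zero_iff]
            exact he
          rw [if_neg ha, div_self hne, one_pow]
        · intro h
          exact absurd (Finset.mem_univ _) h

end Pool.Agent.Y212.Dk
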